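import Pool.Agent.Run7.h946.FP.Ana
import Pool.Agent.Run7.h946.FP.Alg
import Pool.Agent.Run7.h946.FP.Tam
import Pool.Agent.Run7.h16.OP.RP2
import Pool.Agent.Y852.GS.Mins
import Pool.Agent.Y238.G.Hasp

/-!
# The Birch and Swinnerton-Dyer formula modulo an odd prime `p` over abelian `p`-extensions

`W` is the minimal equation of an elliptic curve `E` over `ℚ`, `p` an odd prime, of good or bad reduction,
such that the periods of the newform of `E` are in a multiple prime to `p` of the period lattice of `E` and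
`p ∤ #E(𝔽_q)` for some prime `q` that does not divide `6 p Δ`.  `K ⊂ ℚ(ζ_m)` is a number field of degree
`p^n` in which the primes that divide `6 p Δ` split completely; `m` is squarefree, prime to `Δ`, and its
prime divisors are `1` modulo `p` and ramified in `K`.  For `F = ℚ` and for `F = K` let
`x(F) = L(E/F, 1) √|Δ_F| #E(F)_tors² / Ω`.  The formula of Birch and Swinnerton-Dyer modulo `p` says
that `x(F)` is rational with denominator prime to `p`, and that its numerator is prime to `p` if and only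
if the rank of `E(F)` is zero, `Ш(E/F)[p^∞] = 0` and the Tamagawa numbers are prime to `p`.

We prove that `x(ℚ)` and `x(K)` have denominators prime to `p` and

* `x(K)` is prime to `p` if and only if `x(ℚ)` is prime to `p` and `p ∤ #E(𝔽_l)` for all primes `l` that
  divide the discriminant of `K`;
* if `rank E(K) = 0` and `Ш(E/K)[p^∞] = 0` then `rank E(ℚ) = 0` and `Ш(E/ℚ)[p^∞] = 0`; the converse holds
  if `p ∤ #E(𝔽_l)` for all primes `l` that divide the discriminant of `K`;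
* the Tamagawa product over `K` is prime to `p` if and only if the one over `ℚ` is.

So the formula modulo `p` over `ℚ` implies the formula modulo `p` over all these fields `K` if `p`
divides `x(ℚ)`, for example if the rank is positive or if `Ш(E/ℚ)` has elements of order `p`, and if `p`
does not divide `x(ℚ)`, over those `K` for which `p ∤ #E(𝔽_l)` for all `l`; for the latter `K` the formulas
over `ℚ` and over `K` are equivalent.

The proof.  Analytic side: `L(E/K, s)` is the product of the twists of `L(E, s)` by the characters `χ`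
of `K`; the values are periods times integral combinations of roots of unity of `p`-power order, divided
by integers prime to `p`; the total of the coefficients for a character of conductor `d` is, up to
factors prime to `p`, `∏_{l | d} (a_l - 2)` times the one for `ℚ`, and `a_l - 2 = -#E(𝔽_l)` modulo `p`; and
the product over the characters is an integer which is modulo `p` the product of the totals.  Algebraic
side: inflation-restriction for the points of order `p`, and the descent of `Run7/h16/OP`.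
-/

set_option autoImplicit false

open NumberField NumberField.InfinitePlace IsDedekindDomain WeierstrassCurve MeasureTheory
open UpperHalfPlane MatrixGroups CongruenceSubgroup

namespace Pool.Agent.Results.MP_5deabe_nt.FormulaModP

open scoped Classical

open Pool.Agent.TH841.NF.D (Sha)

/-- The curve given by the equation of `W` over the ring `R`. -/
abbrev base (W : WeierstrassCurve ℤ) (R : Type) [CommRing R] : WeierstrassCurve R :=
  W.map (Int.castRingHom R)

/-- The number of the affine points `(x, y)` over the ring `R`. -/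
noncomputable def pts (W : WeierstrassCurve ℤ) (R : Type) [CommRing R] : ℕ :=
  Nat.card {P : R × R // (base W R).toAffine.Equation P.1 P.2}

section

variable {K : Type} [Field K] [NumberField K]

/-- `a_v = N v + 1 - #W(k_v)`, the points over the residue field `k_v` counted with the point at
infinity. -/
noncomputable def a (W : WeierstrassCurve ℤ) (v : HeightOneSpectrum (𝓞 K)) : ℤ :=
  (Ideal.absNorm v.asIdeal : ℤ) - pts W (𝓞 K ⧸ v.asIdeal)

/-- The Euler factor of `L(W/K, s)` at `v` : `(1 - a_v N v^(-s) + N v^(1 - 2 s))⁻¹` if the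
discriminant is a unit at `v`, and `(1 - a_v N v^(-s))⁻¹` otherwise. -/
noncomputable def factor (W : WeierstrassCurve ℤ) (s : ℂ) (v : HeightOneSpectrum (𝓞 K)) : ℂ :=
  (1 - (a W v : ℂ) * (Ideal.absNorm v.asIdeal : ℂ) ^ (-s) +
    if ((W.Δ : ℤ) : 𝓞 K) ∈ v.asIdeal then 0 else (Ideal.absNorm v.asIdeal : ℂ) ^ (1 - 2 * s))⁻¹

/-- The equation is minimal at the finite place `v` of `K`: no change of variables over `K` that
keeps the coefficients integral at `v` decreases the valuation of the discriminant. -/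
def MinimalAt (W : WeierstrassCurve ℤ) (v : HeightOneSpectrum (𝓞 K)) : Prop :=
  ∀ C : VariableChange K, v.valuation K (C • base W K).a₁ ≤ 1 →
    v.valuation K (C • base W K).a₂ ≤ 1 → v.valuation K (C • base W K).a₃ ≤ 1 →
    v.valuation K (C • base W K).a₄ ≤ 1 → v.valuation K (C • base W K).a₆ ≤ 1 →
    v.valuation K (C • base W K).Δ ≤ v.valuation K (base W K).Δ

/-- `E⁰(K_v)`, the group of the points of `W` over the completion `K_v` with nonsingular reduction:
the points `(x, y)` where `x` is not integral, or one of the partial derivatives of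
`y² + a₁ x y + a₃ y - x³ - a₂ x² - a₄ x - a₆` is a unit at `(x, y)`, and the point at infinity. -/
noncomputable def nonsing (W : WeierstrassCurve ℤ) (v : HeightOneSpectrum (𝓞 K)) :
    AddSubgroup (base W (v.adicCompletion K)).toAffine.Point :=
  AddSubgroup.closure {P | ∀ x y h, P = Affine.Point.some x y h →
    1 < Valued.v x ∨ Valued.v (W.a₁ * y - (3 * x ^ 2 + 2 * W.a₂ * x + W.a₄)) = 1 ∨
      Valued.v (2 * y + W.a₁ * x + W.a₃) = 1}

/-- The Tamagawa number `c_v = [E(K_v) : E⁰(K_v)]` of a minimal equation. -/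
noncomputable def c (W : WeierstrassCurve ℤ) (v : HeightOneSpectrum (𝓞 K)) : ℕ :=
  (nonsing W v).index

end

section

variable (K : Type) [Field K] [NumberField K]

/-- The product of the Tamagawa numbers. -/
noncomputable def Tam (W : WeierstrassCurve ℤ) : ℕ := ∏ᶠ v : HeightOneSpectrum (𝓞 K), c W v

/-- The `p`-primary part of the Tate-Shafarevich group over `K`. -/
def ShaP (p : ℕ) (W : WeierstrassCurve ℤ) : Set (Sha (base W K)) := {x | ∃ n : ℕ, p ^ n • x = 0}

/-- The torsion subgroup of the group of the points over `K`. -/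
def tors (W : WeierstrassCurve ℤ) : Set (base W K).toAffine.Point := {P | ∃ n : ℕ, 0 < n ∧ n • P = 0}

/-- The rank of the group of the points over `K`. -/
noncomputable def rank (W : WeierstrassCurve ℤ) : ℕ := Module.finrank ℤ (base W K).toAffine.Point

end

/-- `4 x³ + b₂ x² + 2 b₄ x + b₆ = (2 y + a₁ x + a₃)²`, where `b₂ = a₁² + 4 a₂`,
`b₄ = 2 a₄ + a₁ a₃`, `b₆ = a₃² + 4 a₆`. -/
def cubic (W : WeierstrassCurve ℤ) {R : Type} [CommRing R] (x : R) : R :=
  4 * x ^ 3 + W.b₂ * x ^ 2 + 2 * W.b₄ * x + W.b₆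

/-- `∫_{W(ℝ)} |ω|` with `ω = dx / (2 y + a₁ x + a₃)`, as an integral over `x`: two real points lie
over each `x` with `cubic x > 0`. -/
noncomputable def realPeriod (W : WeierstrassCurve ℤ) : ℝ :=
  2 * ∫ x in {x : ℝ | 0 < cubic W x}, 1 / √(cubic W x)

/-- `2 ∫_{W(ℂ)} |ω ∧ ω̄|`, where `|ω ∧ ω̄| = du dv` in a local parameter `z = u + i v` with
`dz = ω`, as an integral over `x`: two points lie over a general `x`, and `|ω ∧ ω̄|` is the area
element of the plane of `x` divided by `|cubic x|`. -/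
noncomputable def complexPeriod (W : WeierstrassCurve ℤ) : ℝ := 2 * (2 * ∫ x : ℂ, 1 / ‖cubic W x‖)

/-- The global period of an equation that is minimal at all finite places. -/
noncomputable def Omega (K : Type) [Field K] [NumberField K] (W : WeierstrassCurve ℤ) : ℝ :=
  realPeriod W ^ nrRealPlaces K * complexPeriod W ^ nrComplexPlaces K

/-- `x` is the value `L(E/K, 1) √|Δ_K| (#E(K)_tors)² / Ω`, where `L` is the entire function given by
the Euler product of `W` over `K` for `Re s > 3/2`. -/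
def HasValue (K : Type) [Field K] [NumberField K] (W : WeierstrassCurve ℤ) (x : ℚ) : Prop :=
  ∃ L : ℂ → ℂ, Differentiable ℂ L ∧
    (∀ s : ℂ, 3 / 2 < s.re → HasProd (factor (K := K) W s) (L s)) ∧
    L 1 * √|(discr K : ℝ)| * (Nat.card (tors K W) : ℂ) ^ 2 = x * Omega K W

/-- **The formula of Birch and Swinnerton-Dyer modulo `p`** for `W` over `K` (the equation being
minimal): the `L`-function is entire, `x = L(E/K, 1) √|Δ_K| (#E(K)_tors)² / Ω` is a rational number with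
denominator prime to `p`, and its numerator is prime to `p` if and only if the rank is zero, the
`p`-primary part of the Tate-Shafarevich group is zero and the product of the Tamagawa numbers is prime
to `p`.  (The conjecture says that `x = #Ш Tam` if the rank is zero, and `x = 0` otherwise.) -/
def BSDModP (p : ℕ) (K : Type) [Field K] [NumberField K] (W : WeierstrassCurve ℤ) : Prop :=
  ∃ x : ℚ, HasValue K W x ∧ ¬ p ∣ x.den ∧
    (¬ (p : ℤ) ∣ x.num ↔ rank K W = 0 ∧ ShaP K p W = {0} ∧ ¬ p ∣ Tam K W)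

section modular

variable {N : ℕ}

/-- The `n`-th coefficient of the cusp form `f = ∑ a_n q^n`. -/
noncomputable def co (f : CuspForm (Gamma0 N : Subgroup (GL (Fin 2) ℝ)) 2) (n : ℕ) : ℂ :=
  (qExpansion 1 f).coeff n

/-- `2 π i ∫_(i∞)^z f(w) dw = ∑ a_n / n e^(2 π i n z)`. -/
noncomputable def prim (f : CuspForm (Gamma0 N : Subgroup (GL (Fin 2) ℝ)) 2) (z : ℂ) : ℂ :=
  ∑' n : ℕ, co f n / n * Complex.exp (2 * Real.pi * Complex.I * n * z)

/-- The cusp form `f` of weight two for `Γ₀(N)` is the newform of `W`: it is a normalised eigenform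
of the Hecke operators and of the Fricke involution, with real coefficients that satisfy the bounds
of Hasse, `N` has the same prime divisors as the discriminant, and `a_p = p + 1 - #W(𝔽_p)`. -/
structure IsNewform (W : WeierstrassCurve ℤ) (N : ℕ)
    (f : CuspForm (Gamma0 N : Subgroup (GL (Fin 2) ℝ)) 2) : Prop where
  one : co f 1 = 1
  real : ∀ n, (co f n).im = 0
  mul : ∀ m n : ℕ, Nat.Coprime m n → co f (m * n) = co f m * co f n
  pow : ∀ p j : ℕ, p.Prime → co f (p ^ (j + 2)) = co f p * co f (p ^ (j + 1)) -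
      (if p ∣ N then 0 else (p : ℂ) * co f (p ^ j))
  good : ∀ p : ℕ, p.Prime → ¬ p ∣ N → ‖co f p‖ ≤ 2 * Real.sqrt p
  bad : ∀ p : ℕ, p.Prime → p ∣ N → ‖co f p‖ ≤ 1
  fricke : ∃ w : ℝ, (w = 1 ∨ w = -1) ∧ ∀ τ τ' : ℍ, (τ' : ℂ) * ((N : ℂ) * (τ : ℂ)) = -1 →
    f τ' = -(w : ℂ) * (N : ℂ) * (τ : ℂ) ^ 2 * f τ
  level : ∀ p : ℕ, p.Prime → (p ∣ N ↔ (p : ℤ) ∣ W.Δ)
  coef : ∀ p : ℕ, p.Prime → co f p = (p : ℂ) - (pts W (ZMod p) : ℂ)

end modular

section proof

open Pool.Agent.Y702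

variable {N : ℕ} [NeZero N]

omit [NeZero N] in
lemma isForm {W : WeierstrassCurve ℤ} {f : CuspForm (Gamma0 N : Subgroup (GL (Fin 2) ℝ)) 2}
    (h : IsNewform W N f) : G.IsForm W N f :=
  ⟨h.one, h.real, h.mul, h.pow, h.good, h.bad, h.fricke, h.level, h.coef⟩

lemma c_eq {K : Type} [Field K] [NumberField K] (W : WeierstrassCurve ℤ)
    (v : HeightOneSpectrum (𝓞 K)) : c W v = Pool.Agent.R425.G.cv W v := rfl

lemma cubic_eq (W : WeierstrassCurve ℤ) {R : Type} [CommRing R] (x : R) :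
    cubic W x = G.cubic W x := rfl

lemma sha_iff {p : ℕ} {K : Type} [Field K] [NumberField K] (W : WeierstrassCurve ℤ) :
    (∀ s : Sha (base W K), p • s = 0 → s = 0) ↔ ShaP K p W = {0} := by
  constructor
  · intro h
    have key : ∀ (j : ℕ) (x : Sha (base W K)), p ^ j • x = 0 → x = 0 := by
      intro j
      induction j with
      | zero => intro x hx; rw [pow_zero, one_nsmul] at hx; exact hx
      | succ j ih =>
        intro x hx
        rw [pow_succ, mul_nsmul] at hx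
        exact ih x (h _ hx)
    ext x
    constructor
    · rintro ⟨k, hk⟩
      exact key k x hk
    · rintro rfl
      exact ⟨0, nsmul_zero _⟩
  · intro h s hs
    have h1 : s ∈ ShaP K p W := ⟨1, by rw [pow_one]; exact hs⟩
    rw [h] at h1
    exact h1

/-- the two forms of the algebraic side -/
lemma side_iff {p : ℕ} {K : Type} [Field K] [NumberField K] (W : WeierstrassCurve ℤ) (hW : W.Δ ≠ 0) :
    (rank K W = 0 ∧ ShaP K p W = {0}) ↔ (Finite (base W K).toAffine.Point ∧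
      ∀ s : Sha (base W K), p • s = 0 → s = 0) := by
  rw [sha_iff]
  have h : rank K W = 0 ↔ Finite (base W K).toAffine.Point := Pool.Agent.R425.G.rank_iff W hW
  rw [h]

/-- the value is unique -/
lemma value_uniq {K : Type} [Field K] [NumberField K] (W : WeierstrassCurve ℤ)
    (hO : Omega K W ≠ 0) {x y : ℚ} (hx : HasValue K W x) (hy : HasValue K W y) : x = y := by
  obtain ⟨L1, d1, p1, e1⟩ := hx
  obtain ⟨L2, d2, p2, e2⟩ := hy
  have h : L1 = L2 := Pool.Agent.R425.G.L_uniq (W := W) (K := K) d1 d2 p1 p2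
  rw [h, e2] at e1
  have h1 : (Omega K W : ℂ) ≠ 0 := by exact_mod_cast hO
  have h2 := mul_right_cancel₀ h1 e1
  exact_mod_cast h2.symm

/-- the value in terms of integers -/
lemma value_of {p : ℕ} [hp : Fact p.Prime] {K : Type} [Field K] [NumberField K]
    (W : WeierstrassCurve ℤ) {H : ℂ → ℂ} (hHd : Differentiable ℂ H)
    (hHp : ∀ s : ℂ, 3 / 2 < s.re → HasProd (factor (K := K) W s) (H s)) {r : ℝ} (hr : H 1 = r)
    {D M' : ℤ} (hD : ¬ (p : ℤ) ∣ D) (hT : ¬ p ∣ Nat.card (tors K W))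
    (hval : |(D : ℝ)| * (|r| * √|(discr K : ℝ)|) = |(M' : ℝ)| * Omega K W) :
    ∃ x : ℚ, HasValue K W x ∧ ¬ p ∣ x.den ∧ ((p : ℤ) ∣ x.num ↔ (p : ℤ) ∣ M') := by
  have hpI : Prime (p : ℤ) := Nat.prime_iff_prime_int.1 hp.out
  obtain ⟨ε, hε, hεr⟩ : ∃ ε : ℤ, ¬ (p : ℤ) ∣ ε ∧ r = ε * |r| := by
    have h1 : ¬ (p : ℤ) ∣ 1 := hpI.not_dvd_one
    rcases le_total 0 r with h | h
    · exact ⟨1, h1, by rw [abs_of_nonneg h]; push_cast; ring⟩
    · exact ⟨-1, by rwa [dvd_neg], by rw [abs_of_nonpos h]; push_cast; ring⟩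
  have hDo' : ¬ (p : ℤ) ∣ |D| := by rwa [dvd_abs]
  have hD0 : (|D| : ℤ) ≠ 0 := by
    intro h
    rw [h] at hDo'
    exact hDo' (dvd_zero _)
  have hD0' : ((|D| : ℤ) : ℝ) ≠ 0 := by exact_mod_cast hD0
  obtain ⟨h1, h2⟩ := Run7.h946.FP.frac (p := p) (ε * |M'| * (Nat.card (tors K W) : ℤ) ^ 2) |D| hDo'
  have hreal : r * √|(discr K : ℝ)| * (Nat.card (tors K W) : ℝ) ^ 2 =
      ((ε * |M'| * (Nat.card (tors K W) : ℤ) ^ 2 : ℤ) : ℝ) / ((|D| : ℤ) : ℝ) * Omega K W := by
    rw [div_mul_eq_mul_div, eq_div_iff hD0', hεr]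
    push_cast
    linear_combination (ε : ℝ) * (Nat.card (tors K W) : ℝ) ^ 2 * hval
  refine ⟨((ε * |M'| * (Nat.card (tors K W) : ℤ) ^ 2 : ℤ) : ℚ) / (|D| : ℤ), ⟨H, hHd, hHp, ?_⟩,
    h1, ?_⟩
  · rw [hr]
    have h5 := congrArg (fun y : ℝ => (y : ℂ)) hreal
    simp only [Complex.ofReal_mul, Complex.ofReal_pow, Complex.ofReal_natCast, Complex.ofReal_div,
      Complex.ofReal_intCast] at h5
    rw [h5, Rat.cast_div, Rat.cast_intCast, Rat.cast_intCast]
  · rw [h2]
    have h3 : ¬ (p : ℤ) ∣ (Nat.card (tors K W) : ℤ) ^ 2 := fun h =>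
      hT (by exact_mod_cast hpI.dvd_of_dvd_pow h)
    constructor
    · intro h
      rcases hpI.dvd_or_dvd h with h | h
      · rcases hpI.dvd_or_dvd h with h | h
        · exact absurd h hε
        · rwa [dvd_abs] at h
      · exact absurd h h3
    · intro h
      exact Dvd.dvd.mul_right (Dvd.dvd.mul_left ((dvd_abs _ _).2 h) _) _

lemma total_real (K : Type) [Field K] [NumberField K] [IsGalois ℚ K]
    (h : Odd (Module.finrank ℚ K)) : nrComplexPlaces K = 0 := by
  rw [nrComplexPlaces_eq_zero_iff]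
  have h1 : IsUnramifiedAtInfinitePlaces ℚ K := IsUnramifiedAtInfinitePlaces_of_odd_finrank h
  refine ⟨fun w => ?_⟩
  rcases (InfinitePlace.isUnramified_iff (k := ℚ)).1 (h1.isUnramified w) with h2 | h2
  · exact h2
  · exfalso
    have h3 : nrComplexPlaces ℚ = 0 :=
      nrComplexPlaces_eq_zero_of_finrank_eq_one (Module.finrank_self ℚ)
    rw [nrComplexPlaces_eq_zero_iff] at h3
    exact (InfinitePlace.not_isReal_iff_isComplex.2 h2) (h3.isReal _)

lemma galQ : @IsGalois ℚ _ ℚ _ DivisionRing.toRatAlgebra := by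
  have e : (DivisionRing.toRatAlgebra : Algebra ℚ ℚ) = Algebra.id ℚ := Subsingleton.elim _ _
  rw [e]
  infer_instance

lemma finQ : @Module.finrank ℚ ℚ _ _ (DivisionRing.toRatAlgebra : Algebra ℚ ℚ).toModule = 1 := by
  have e : (DivisionRing.toRatAlgebra : Algebra ℚ ℚ) = Algebra.id ℚ := Subsingleton.elim _ _
  rw [e]
  exact Module.finrank_self ℚ

end proof

/-- **Main theorem.** Let `W` be a Weierstrass equation with integral coefficients and nonzero
discriminant `Δ`, minimal at all primes, and `p` an odd prime; let `f` be the newform of `W`, of a level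
`N` with the same prime divisors as `Δ`; let `Λ` be the period lattice of the differential
`dx / (2 y + a₁ x + a₃)` of `W` (the lattice with `g₂ = c₄ / 12`, `g₃ = c₆ / 216`), and assume that `c`
times the periods of `2 π i f(z) dz` on `Γ₀(N)` are in `Λ` for some `c` prime to `p` (the Manin constant
is prime to `p`).  Assume that `p ∤ #W(𝔽_q)` for some prime `q` that does not divide `6 p Δ`.  Let `m` be
squarefree, `M` the `m`-th cyclotomic field, and `K` a subfield of degree `p^n`, such that the prime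
divisors `l` of `m` do not divide `Δ`, are `1` modulo `p` and divide the discriminant of `K`, and such
that the places that divide `6 p Δ` have a residue field of prime order, that is, the primes that divide
`6 p Δ` split completely in `K`.  Let `A` be the statement that `p ∤ #W(𝔽_l)` for all primes `l` that
divide the discriminant of `K`. -/
theorem result {N : ℕ} [NeZero N] {p : ℕ} (hp : p.Prime) (hp2 : p ≠ 2)
    (W : WeierstrassCurve ℤ) (hΔ : W.Δ ≠ 0)
    (hmin : ∀ v : HeightOneSpectrum (𝓞 ℚ), MinimalAt W v)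
    (f : CuspForm (Gamma0 N : Subgroup (GL (Fin 2) ℝ)) 2) (hf : IsNewform W N f)
    (Λ : PeriodPair) (hg₂ : Λ.g₂ = (W.c₄ : ℂ) / 12) (hg₃ : Λ.g₃ = (W.c₆ : ℂ) / 216)
    (hman : ∃ c : ℤ, ¬ (p : ℤ) ∣ c ∧ ∀ γ ∈ Gamma0 N, ∀ z : ℍ,
      (c : ℂ) * (prim f ((γ • z : ℍ) : ℂ) - prim f (z : ℂ)) ∈ Λ.lattice)
    (q : ℕ) (hq : q.Prime) (hqΔ : ¬ (q : ℤ) ∣ 6 * p * W.Δ) (hqp : ¬ p ∣ pts W (ZMod q) + 1)
    (m : ℕ) [NeZero m] (hsq : Squarefree m)
    (M : Type) [Field M] [NumberField M] [IsCyclotomicExtension {m} ℚ M]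
    (K : IntermediateField ℚ M) (n : ℕ) (hn : Module.finrank ℚ K = p ^ n)
    (hm : ∀ l : ℕ, l.Prime → l ∣ m → ¬ (l : ℤ) ∣ W.Δ ∧ p ∣ l - 1 ∧ (l : ℤ) ∣ discr K)
    (hsplit : ∀ v : HeightOneSpectrum (𝓞 K), ((6 * p * W.Δ : ℤ) : 𝓞 K) ∈ v.asIdeal →
      (Ideal.absNorm v.asIdeal).Prime)
    (A : Prop) (hA : A ↔ ∀ l : ℕ, l.Prime → (l : ℤ) ∣ discr K → ¬ p ∣ pts W (ZMod l) + 1) :
    ((∀ v : HeightOneSpectrum (𝓞 K), MinimalAt W v) ∧
      {v : HeightOneSpectrum (𝓞 K) | c W v ≠ 1}.Finite ∧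
      {v : HeightOneSpectrum (𝓞 ℚ) | c W v ≠ 1}.Finite ∧
      ¬ p ∣ Nat.card (tors K W) ∧ ¬ p ∣ Nat.card (tors ℚ W) ∧ (p ∣ Tam K W ↔ p ∣ Tam ℚ W)) ∧
    (∃ x₀ x : ℚ, HasValue ℚ W x₀ ∧ HasValue K W x ∧ ¬ p ∣ x₀.den ∧ ¬ p ∣ x.den ∧
      (¬ (p : ℤ) ∣ x.num ↔ ¬ (p : ℤ) ∣ x₀.num ∧ A) ∧
      (BSDModP p ℚ W → A ∨ (p : ℤ) ∣ x₀.num → BSDModP p K W)) ∧
    ((rank K W = 0 ∧ ShaP K p W = {0}) → (rank ℚ W = 0 ∧ ShaP ℚ p W = {0})) ∧
    (A → (rank ℚ W = 0 ∧ ShaP ℚ p W = {0}) → (rank K W = 0 ∧ ShaP K p W = {0})) ∧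
    (A → (BSDModP p K W ↔ BSDModP p ℚ W)) := by
  have : Fact p.Prime := ⟨hp⟩
  have : Fact q.Prime := ⟨hq⟩
  have hpI : Prime (p : ℤ) := Nat.prime_iff_prime_int.1 hp
  have hgal : IsGalois ℚ K := Pool.Agent.Y702.L.gal_F m M K
  have hfI := isForm hf
  have hunr : ∀ (p : ℕ), p.Prime → ¬ p ∣ m → ∀ v : HeightOneSpectrum (𝓞 K), (p : 𝓞 K) ∈ v.asIdeal →
      v.valuation K (p : K) = WithZero.exp (-1 : ℤ) :=
    fun p hp hpm v hv => Pool.Agent.Y702.Fn.unr m M K hp hpm v hv
  have hp3 : 3 ≤ p := by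
    have := hp.two_le
    omega
  -- the primes that divide `m`
  have hm6 : ∀ l : ℕ, l.Prime → l ∣ m → ¬ (l : ℤ) ∣ 6 * p * W.Δ := by
    intro l hl hlm h
    obtain ⟨h1, h2, -⟩ := hm l hl hlm
    have hlI : Prime (l : ℤ) := Nat.prime_iff_prime_int.1 hl
    have hl1 : 0 < l - 1 := by have := hl.two_le; omega
    have hle := Nat.le_of_dvd hl1 h2
    rcases hlI.dvd_or_dvd h with h3 | h3
    · rcases hlI.dvd_or_dvd h3 with h4 | h4
      · have h5 : l ∣ 6 := by exact_mod_cast h4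
        have h6 : l ∣ 2 * 3 := h5
        rcases (Nat.Prime.dvd_mul hl).1 h6 with h7 | h7
        · have := Nat.le_of_dvd (by norm_num) h7
          omega
        · have := Nat.le_of_dvd (by norm_num) h7
          omega
      · have h5 : l ∣ p := by exact_mod_cast h4
        have := Nat.le_of_dvd hp.pos h5
        omega
    · exact h1 h3
  have hm2 : ∀ l : ℕ, l.Prime → l ∣ m → ¬ (l : ℤ) ∣ 2 * W.Δ := by
    intro l hl hlm h
    apply hm6 l hl hlm
    have e : (6 * p * W.Δ : ℤ) = 3 * p * (2 * W.Δ) := by ring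
    rw [e]
    exact Dvd.dvd.mul_left h _
  have hsplit2 : ∀ v : HeightOneSpectrum (𝓞 K), ((2 * W.Δ : ℤ) : 𝓞 K) ∈ v.asIdeal →
      (Ideal.absNorm v.asIdeal).Prime := by
    intro v hv
    apply hsplit
    have e : ((6 * p * W.Δ : ℤ) : 𝓞 K) = ((3 * p : ℤ) : 𝓞 K) * ((2 * W.Δ : ℤ) : 𝓞 K) := by
      push_cast; ring
    rw [e]
    exact Ideal.mul_mem_left _ _ hv
  -- the auxiliary prime
  have hqI : Prime (q : ℤ) := Nat.prime_iff_prime_int.1 hq
  have hpq : p ≠ q := by
    rintro rfl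
    exact hqΔ (Dvd.dvd.mul_right (Dvd.intro_left _ rfl) _)
  have hq6 : ¬ (q : ℤ) ∣ 6 * W.Δ := by
    intro h
    apply hqΔ
    have e : (6 * p * W.Δ : ℤ) = p * (6 * W.Δ) := by ring
    rw [e]
    exact Dvd.dvd.mul_left h _
  have hqN : ¬ q ∣ N := by
    intro h
    exact hq6 (((hfI.level q hq).1 h).mul_left 6)
  have hqp' : ¬ (p : ℤ) ∣ (pts W (ZMod q) : ℤ) + 1 := by
    intro h
    exact hqp (by exact_mod_cast h)
  have hntK := Run7.h16.OP.noTor_K (p := p) (Pool.Agent.Y702.G.sh W) K n hn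
    (fun R hR => Run7.h946.FP.nt_base W hpq hq6 hqp K R hR)
  have hgQ : @IsGalois ℚ _ ℚ _ DivisionRing.toRatAlgebra := galQ
  have hntQ := Run7.h16.OP.noTor_K (p := p) (Pool.Agent.Y702.G.sh W) ℚ 0 (finQ.trans (pow_zero p).symm)
    (fun R hR => Run7.h946.FP.nt_base W hpq hq6 hqp ℚ R hR)
  have htK : ¬ p ∣ Nat.card (tors K W) := Run7.h946.FP.tors_card W hΔ hntK
  have htQ : ¬ p ∣ Nat.card (tors ℚ W) := Run7.h946.FP.tors_card W hΔ hntQ
  -- the places
  have hbelow : ∀ v : HeightOneSpectrum (𝓞 K), ((W.Δ : ℤ) : 𝓞 K) ∈ v.asIdeal →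
      (∀ x : ℚ, v.valuation K (algebraMap ℚ K x) = (v.under (𝓞 ℚ)).valuation ℚ x) ∧
      (Ideal.absNorm v.asIdeal).Prime := by
    intro v hv
    have h2 : ((2 * W.Δ : ℤ) : 𝓞 K) ∈ v.asIdeal := by
      push_cast
      exact Ideal.mul_mem_left _ _ hv
    refine ⟨?_, hsplit2 v h2⟩
    set q := Pool.Agent.H921R2.TatePole.below v with hq
    have h5 : ((q : ℕ) : ℤ) ∣ 2 * W.Δ := by
      have h6 : (((2 * W.Δ).natAbs : ℕ) : 𝓞 K) ∈ v.asIdeal := by
        rcases Int.natAbs_eq (2 * W.Δ) with h8 | h8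
        · rw [h8] at h2
          rw [Int.cast_natCast] at h2
          exact h2
        · rw [h8, Int.cast_neg, neg_mem_iff, Int.cast_natCast] at h2
          exact h2
      rw [Pool.Agent.H82R3.EK.natCast_mem_iff] at h6
      exact Int.natCast_dvd.2 h6
    have hqm : ¬ (q : ℕ) ∣ m := fun h => (hm2 _ q.2 h) h5
    exact Pool.Agent.Y702.G.val_eq v _ rfl q
      (hunr _ q.2 hqm v ((Pool.Agent.H82R3.EK.natCast_mem_iff v _).2 dvd_rfl))
  have hTam : p ∣ Tam K W ↔ p ∣ Tam ℚ W :=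
    not_iff_not.1 (Run7.h946.FP.tam_iff W hΔ m hm2 hunr hbelow)
  have hminK : ∀ v : HeightOneSpectrum (𝓞 K), MinimalAt W v := by
    intro v
    by_cases hv : ((W.Δ : ℤ) : 𝓞 K) ∈ v.asIdeal
    · obtain ⟨h1, h2⟩ := hbelow v hv
      exact Pool.Agent.Y852.GS.s_mins W K v _ h1 h2 (hmin _)
    · intro C h1 h2 h3 h4 h6
      have e : (base W K).Δ = (W.Δ : K) := by
        rw [WeierstrassCurve.map_Δ]
        simp
      rw [e, Pool.Agent.R425.G.unit_of W v hv]
      exact Pool.Agent.Y702.Fn.disc_le v _ h1 h2 h3 h4 h6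
  -- the period
  obtain ⟨Op, hOp, hre, k, hk, hkA⟩ := Run7.h16.OP.RP.real_period W hΔ Λ hg₂ hg₃
  have hreal : realPeriod W = k * Op := hkA
  have hk0 : 0 < k := by rcases hk with rfl | rfl <;> norm_num
  have hkp : ¬ (p : ℤ) ∣ (k : ℤ) := by
    intro h
    have h1 : p ∣ k := by exact_mod_cast h
    have h2 := Nat.le_of_dvd hk0 h1
    rcases hk with rfl | rfl <;> omega
  have hkR : (0 : ℝ) < k := by exact_mod_cast hk0
  have hOQ : Omega ℚ W = k * Op := by
    unfold Omega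
    rw [hreal, nrRealPlaces_eq_one_of_finrank_eq_one (Module.finrank_self ℚ),
      nrComplexPlaces_eq_zero_of_finrank_eq_one (Module.finrank_self ℚ), pow_one, pow_zero, mul_one]
  have hodd : Odd (Module.finrank ℚ K) := by
    rw [hn]
    exact (hp.odd_of_ne_two hp2).pow
  have hc0 := total_real K hodd
  have hr0 : nrRealPlaces K = p ^ n := by
    have h := card_add_two_mul_card_eq_rank K
    rw [hc0, mul_zero, add_zero] at h
    rw [h, hn]
  have hOK : Omega K W = (k * Op) ^ (p ^ n) := by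
    unfold Omega
    rw [hreal, hc0, hr0, pow_zero, mul_one]
  have hOQ0 : Omega ℚ W ≠ 0 := by
    rw [hOQ]
    positivity
  have hOK0 : Omega K W ≠ 0 := by
    rw [hOK]
    positivity
  -- the periods of the form
  obtain ⟨cc, hcc, hman'⟩ := hman
  obtain ⟨s, t, hPer⟩ := Run7.h946.FP.exists_perQ (f := f) hp2 hOp (Λ := (Λ.lattice : Set ℂ)) hre hcc (by
    rintro x ⟨γ, rfl⟩
    have h1 := Pool.Agent.Y18.BSD.per_spec f (Additive.toMul γ) UpperHalfPlane.I
    have h2 := hman' _ (Additive.toMul γ).2 UpperHalfPlane.I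
    have h3 : prim f ((((Additive.toMul γ : Gamma0 N) : SL(2, ℤ)) • UpperHalfPlane.I : ℍ) : ℂ) -
        prim f (UpperHalfPlane.I : ℂ) = Pool.Agent.Y18.BSD.per f (Additive.toMul γ) := by
      have h4 : prim f ((((Additive.toMul γ : Gamma0 N) : SL(2, ℤ)) • UpperHalfPlane.I : ℍ) : ℂ) =
          prim f (UpperHalfPlane.I : ℂ) + Pool.Agent.Y18.BSD.per f (Additive.toMul γ) := h1
      rw [h4]
      ring
    rw [h3] at h2
    exact h2) hfI hq hqN hqp'
  have hcoN : Nat.Coprime m N := by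
    rw [Nat.coprime_iff_gcd_eq_one]
    by_contra h
    obtain ⟨l, hl, hl2⟩ := Nat.exists_prime_and_dvd h
    have h3 := (hfI.level l hl).1 (hl2.trans (Nat.gcd_dvd_right _ _))
    exact (hm l hl (hl2.trans (Nat.gcd_dvd_left _ _))).1 h3
  obtain ⟨H, hHd, hHp, him, D, M', hDo, hMo, hval⟩ := Run7.h946.FP.l_main hp2
    Pool.Agent.Y238.G.s_hasp hΔ hfI hPer hq hqN hqp' m hsq hcoN (fun l hl hlm => by
      have h5 : ((l - 1 : ℕ) : ℤ) = (l : ℤ) - 1 := by
        rw [Nat.cast_sub hl.one_le]; rfl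
      rw [← h5]
      exact_mod_cast (hm l hl hlm).2.1) M K n hn hsplit2
  have hMo' : ¬ (p : ℤ) ∣ M' ↔ ¬ (p : ℤ) ∣ s ∧ A := hMo.trans (and_congr_right fun _ => hA.symm)
  -- the value over `ℚ`
  obtain ⟨x₀, hx₀, hx₀d, hx₀n⟩ : ∃ x₀ : ℚ, HasValue ℚ W x₀ ∧ ¬ p ∣ x₀.den ∧
      ((p : ℤ) ∣ x₀.num ↔ (p : ℤ) ∣ s) := by
    obtain ⟨L₀, hL1, hL2, hL3⟩ := Pool.Agent.R425.G.exists_LQ hfI
    have htne : t ≠ 0 := by
      rintro rfl
      exact hPer.t_nd (dvd_zero _)
    have hkt : ¬ (p : ℤ) ∣ t * k := by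
      intro h
      rcases hpI.dvd_or_dvd h with h | h
      · exact hPer.t_nd h
      · exact hkp h
    refine value_of (p := p) W hL1 hL2 (r := (s : ℝ) / t * Op) (D := t * k) ?_ hkt htQ ?_
    · have ht0 : (t : ℂ) ≠ 0 := by exact_mod_cast htne
      have h3 : L₀ 1 = (s : ℂ) / t * Op := by
        rw [hL3, div_mul_eq_mul_div, eq_div_iff ht0, mul_comm, hPer.val]
      rw [h3]
      push_cast
      ring
    · have ht0 : (t : ℝ) ≠ 0 := by exact_mod_cast htne
      rw [hOQ]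
      simp only [Rat.numberField_discr, Int.cast_one, abs_one, Real.sqrt_one, mul_one]
      have e1 : |((t * (k : ℤ) : ℤ) : ℝ)| = |(t : ℝ)| * k := by
        push_cast
        rw [abs_mul, abs_of_pos hkR]
      rw [e1, abs_mul, abs_div, abs_of_pos hOp]
      have h2 := abs_ne_zero.2 ht0
      field_simp
  -- the value over `K`
  obtain ⟨x, hx, hxd, hxn⟩ : ∃ x : ℚ, HasValue K W x ∧ ¬ p ∣ x.den ∧
      ((p : ℤ) ∣ x.num ↔ (p : ℤ) ∣ M') := by
    have hre : H 1 = ((H 1).re : ℂ) := Complex.ext rfl (by rw [him]; rfl)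
    have hnorm : ‖H 1‖ = |(H 1).re| := by
      rw [hre, Complex.norm_real, Real.norm_eq_abs, Complex.ofReal_re]
    have hDk : ¬ (p : ℤ) ∣ D * (k : ℤ) ^ (p ^ n) := by
      intro h
      rcases hpI.dvd_or_dvd h with h | h
      · exact hDo h
      · exact hkp (hpI.dvd_of_dvd_pow h)
    refine value_of (p := p) W hHd hHp hre (D := D * (k : ℤ) ^ (p ^ n)) hDk htK ?_
    have e1 : |((D * (k : ℤ) ^ (p ^ n) : ℤ) : ℝ)| = |(D : ℝ)| * (k : ℝ) ^ (p ^ n) := by
      push_cast
      rw [abs_mul, abs_of_pos (pow_pos hkR (p ^ n))]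
    rw [hnorm] at hval
    rw [e1, hOK, mul_pow]
    linear_combination ((k : ℝ) ^ (p ^ n)) * hval
  have hxx : ¬ (p : ℤ) ∣ x.num ↔ ¬ (p : ℤ) ∣ x₀.num ∧ A := by
    rw [hxn, hMo', hx₀n]
  -- the algebraic side
  have hdown : (rank K W = 0 ∧ ShaP K p W = {0}) → (rank ℚ W = 0 ∧ ShaP ℚ p W = {0}) := by
    rw [side_iff W hΔ, side_iff W hΔ]
    rintro ⟨h1, h2⟩
    exact Run7.h946.FP.alg_down W hΔ hntK h1 h2
  have hup : A → (rank ℚ W = 0 ∧ ShaP ℚ p W = {0}) → (rank K W = 0 ∧ ShaP K p W = {0}) := by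
    intro hA'
    rw [side_iff W hΔ, side_iff W hΔ]
    rintro ⟨h1, h2⟩
    have h3 := Run7.h946.FP.card_nd (p := p) W hΔ hntQ h1
    have hsel := Run7.h16.OP.sel_p hp2 W hΔ h2 h1 h3 m M K n hn
      (fun l hl hlm => ⟨hm6 l hl hlm, hA.1 hA' l hl (hm l hl hlm).2.2⟩) hunr hsplit
    obtain ⟨h4, h5, -⟩ := Run7.h16.OP.s_desc W hΔ hsel
    exact ⟨h5, h4⟩
  refine ⟨⟨hminK, Pool.Agent.R425.G.cv_fin W hΔ, Pool.Agent.R425.G.cv_fin W hΔ, htK, htQ,
    hTam⟩, ⟨x₀, x, hx₀, hx, hx₀d, hxd, hxx, ?_⟩, hdown, hup, fun hA' => ⟨?_, ?_⟩⟩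
  · rintro ⟨y, hy, hyd, hyn⟩ hor
    rw [value_uniq W hOQ0 hy hx₀] at hyn
    refine ⟨x, hx, hxd, ?_⟩
    rw [hxx, hTam]
    constructor
    · rintro ⟨h1, h2⟩
      obtain ⟨h3, h4, h5⟩ := hyn.1 h1
      obtain ⟨h6, h7⟩ := hup h2 ⟨h3, h4⟩
      exact ⟨h6, h7, h5⟩
    · rintro ⟨h1, h2, h3⟩
      obtain ⟨h4, h5⟩ := hdown ⟨h1, h2⟩
      have h6 := hyn.2 ⟨h4, h5, h3⟩
      exact ⟨h6, hor.resolve_right h6⟩
  · rintro ⟨y, hy, hyd, hyn⟩
    rw [value_uniq W hOK0 hy hx] at hyn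
    refine ⟨x₀, hx₀, hx₀d, ?_⟩
    rw [hTam] at hyn
    constructor
    · intro h
      obtain ⟨h1, h2, h3⟩ := hyn.1 (hxx.2 ⟨h, hA'⟩)
      obtain ⟨h4, h5⟩ := hdown ⟨h1, h2⟩
      exact ⟨h4, h5, h3⟩
    · rintro ⟨h1, h2, h3⟩
      obtain ⟨h4, h5⟩ := hup hA' ⟨h1, h2⟩
      exact (hxx.1 (hyn.2 ⟨h4, h5, h3⟩)).1
  · rintro ⟨y, hy, hyd, hyn⟩
    rw [value_uniq W hOQ0 hy hx₀] at hyn
    refine ⟨x, hx, hxd, ?_⟩
    rw [hxx, hTam, hyn]
    constructor
    · rintro ⟨⟨h1, h2, h3⟩, -⟩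
      obtain ⟨h4, h5⟩ := hup hA' ⟨h1, h2⟩
      exact ⟨h4, h5, h3⟩
    · rintro ⟨h1, h2, h3⟩
      obtain ⟨h4, h5⟩ := hdown ⟨h1, h2⟩
      exact ⟨⟨h4, h5, h3⟩, hA'⟩

end Pool.Agent.Results.MP_5deabe_nt.FormulaModP
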